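import Pool.Agent.Helper73.FU.Stmts

/-!
# Surjectivity of the gradient of a coercive convex function (for S_bas of MP_a2630c_FU)
-/

set_option autoImplicit false

open MeasureTheory Set Metric Real Filter Topology
open scoped RealInnerProductSpace
open Pool.Agent.Helper16.Buoy (E)

namespace Pool.Agent.Helper23.FU

theorem surj {n : ℕ} {k : E n → ℝ} {Y : E n → E n} {lam r : ℝ} (hlam : 0 < lam)
    (hY : Continuous Y) (hgrad : ∀ v v', k v + lam * inner ℝ (v' - v) (Y v) ≤ k v')
    (y : E n) (hr : 0 < r) (hco : ∀ v, lam * inner ℝ v y + r * ‖v‖ ≤ k v) (hk : Continuous k) :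
    ∃ v, Y v = y := by
  set f : E n → ℝ := fun v => k v - lam * inner ℝ v y with hf
  have hfc : Continuous f := by fun_prop
  have htop : Tendsto f (cocompact (E n)) atTop := by
    apply tendsto_atTop_mono (f := fun v => r * ‖v‖)
    · intro v
      have := hco v
      simp only [hf]
      linarith
    · exact (tendsto_norm_cocompact_atTop (E := E n)).const_mul_atTop hr
  obtain ⟨v0, hv0⟩ := hfc.exists_forall_le htop
  refine ⟨v0, ?_⟩
  have key : ∀ w : E n, (inner ℝ w y : ℝ) ≤ inner ℝ w (Y v0) := by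
    intro w
    have h1 : ∀ t : ℝ, 0 < t → (inner ℝ w y : ℝ) ≤ inner ℝ w (Y (v0 + t • w)) := by
      intro t ht
      have e1 := hv0 (v0 + t • w)
      have e2 := hgrad (v0 + t • w) v0
      simp only [hf] at e1
      have e3 : v0 - (v0 + t • w) = -(t • w) := by abel
      rw [e3, inner_neg_left, real_inner_smul_left] at e2
      rw [inner_add_left, real_inner_smul_left] at e1
      have e4 : lam * t * inner ℝ w y ≤ lam * t * inner ℝ w (Y (v0 + t • w)) := by nlinarith
      exact le_of_mul_le_mul_left e4 (by positivity)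
    have h2 : Tendsto (fun t : ℝ => (inner ℝ w (Y (v0 + t • w)) : ℝ)) (𝓝[>] 0)
        (𝓝 (inner ℝ w (Y v0))) := by
      have h3 : Continuous (fun t : ℝ => (inner ℝ w (Y (v0 + t • w)) : ℝ)) := by fun_prop
      have h4 := (h3.tendsto 0).mono_left (nhdsWithin_le_nhds (s := Ioi 0))
      simpa using h4
    refine ge_of_tendsto h2 ?_
    filter_upwards [self_mem_nhdsWithin] with t ht
    exact h1 t ht
  have h5 := key (y - Y v0)
  have h6 : (inner ℝ (y - Y v0) (y - Y v0) : ℝ) ≤ 0 := by
    rw [inner_sub_right]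
    linarith
  rw [real_inner_self_eq_norm_sq] at h6
  have h7 : ‖y - Y v0‖ = 0 := by nlinarith [norm_nonneg (y - Y v0)]
  exact (sub_eq_zero.1 (norm_eq_zero.1 h7)).symm

end Pool.Agent.Helper23.FU
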