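import Pool.Agent.Helper61.FU.Lev
import Pool.Agent.Helper61.FU.Fea
import Pool.Agent.Helper23.FU.Surj
import Pool.Agent.Helper65.LR.Lev
import Pool.Agent.Helper65.LR.Rh

/-!
# Base points: interior and surjectivity (for S_bas of MP_a2630c_FU)
-/

open MeasureTheory Set Metric Real Filter Topology
open scoped RealInnerProductSpace ENNReal
open Pool.Agent.Helper16.Buoy (E cap IsEllipsoid Homothetic buoyancyBody)
open Pool.Agent.Helper73.HV (supp)
open Pool.Agent.Helper73.LR (CB vol GG Sol aff)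
open Pool.Agent.Helper73.SY (CS)

namespace Pool.Agent.Helper23.FU

open Pool.Agent.Helper73.FU Pool.Agent.Helper61.FU

variable {n : ℕ} {K : Set (E n)} {δ lam : ℝ} {F τ : E n → ℝ}

theorem yint (hfea : S_fea) (hCS : CS K δ lam) (hF : AF K F) (hL : Lev K δ F τ) (v : E n) :
    YY K lam F τ v ∈ interior K := by
  by_contra hcon
  have hcb := hCS.cb
  obtain ⟨-, h2⟩ := hfea hCS (ρ := rr F v (τ v)) (meas hcb (rr_contOn hF (v, τ v)))
    (fun x => rr_nn v (τ v) x) (fun x => rr_le v (τ v) x) (hL.lev v)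
  have h3 := h2 hcon
  rw [restr hcb] at h3
  obtain ⟨y0, hy0, hy1⟩ := hL.ne v
  have hWc : ContinuousOn (fun y => √(Wf F v (τ v) y)) (interior K) := W_contOn hF (v, τ v)
  have hop : IsOpen (interior K ∩ (fun y => √(Wf F v (τ v) y)) ⁻¹' Ioi 0) :=
    hWc.isOpen_inter_preimage isOpen_interior isOpen_Ioi
  have hpos := hop.measure_pos volume ⟨y0, hy0, Real.sqrt_pos.2 hy1⟩
  rw [ae_restrict_iff' isOpen_interior.measurableSet] at h3
  have hzero : volume (interior K ∩ (fun y => √(Wf F v (τ v) y)) ⁻¹' Ioi 0) = 0 := by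
    refine measure_mono_null ?_ h3
    rintro y ⟨hy, hyW⟩ h4
    have hs : √(F y) * sin (π * rr F v (τ v) y) = √(Wf F v (τ v) y) := by
      have h0 := hF.pos y hy
      have h1 : π * rr F v (τ v) y = arccos ((τ v - inner ℝ v y) / √(F y)) := by
        unfold rr pp
        rw [mul_div_cancel₀ _ pi_ne_zero]
      rw [h1, Real.sin_arccos, ← Real.sqrt_mul h0.le]
      congr 1
      unfold Wf
      rw [div_pow, Real.sq_sqrt h0.le]
      field_simp
    have hW : 0 < √(Wf F v (τ v) y) := hyW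
    rcases h4 hy with h5 | h5
    · rw [h5, mul_zero, sin_zero, mul_zero] at hs
      linarith
    · rw [h5, mul_one, sin_pi, mul_zero] at hs
      linarith
  rw [hzero] at hpos
  exact lt_irrefl _ hpos

theorem kk_ge (hJ : S_jj) (hCS : CS K δ lam) (hF : AF K F) (hL : Lev K δ F τ) (v : E n) :
    GG K v (τ v) + δ * τ v ≤ kk K δ F v := by
  have hcb := hCS.cb
  rw [hL.eq v]
  have h1 := jj_int hJ hcb hF v (τ v)
  have h2 := Pool.Agent.Helper65.LR.GG_int hcb.comp v (τ v)
  have h3 : GG K v (τ v) ≤ JJ K (fun y => √(F y)) v (τ v) := by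
    unfold GG JJ
    refine integral_mono_ae h2 h1 (Eventually.of_forall fun y => ?_)
    obtain ⟨-, -, -, -, -, hbd, -⟩ := hJ
    obtain ⟨b1, b2, -⟩ := hbd (√(F y)) (τ v - inner ℝ v y) (Real.sqrt_nonneg _)
    exact max_le (by linarith) b1
  linarith

theorem coer (hJ : S_jj) (hCS : CS K δ lam) (hF : AF K F) (hL : Lev K δ F τ) {y : E n} {r : ℝ}
    (hr : 0 ≤ r) (hy : closedBall y r ⊆ K) (v : E n) :
    lam * inner ℝ v y + lam * r * ‖v‖ ≤ kk K δ F v := by
  have hcb := hCS.cb
  have hk := kk_ge hJ hCS hF hL v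
  by_cases hv : v = 0
  · subst hv
    have h1 : GG K 0 (τ 0) = vol K * max (-(τ 0)) 0 := by
      unfold GG
      simp [vol, Measure.real]
    rw [h1] at hk
    rw [inner_zero_left, norm_zero, mul_zero, mul_zero, add_zero]
    refine le_trans ?_ hk
    have hd := hCS.dpos
    have hd2 := hCS.dlt
    rcases le_total 0 (τ 0) with h | h
    · have h2 : 0 ≤ max (-(τ 0)) 0 := le_max_right _ _
      have h3 : 0 ≤ vol K := by linarith
      positivity
    · rw [max_eq_left (by linarith)]
      nlinarith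
  · obtain ⟨t, ht, hteq⟩ := hCS.eq v hv
    have h1 := Pool.Agent.Helper65.LR.GG_min hcb.comp v t (τ v) hCS.dpos.le ht
    have hnv : 0 < ‖v‖ := norm_pos_iff.2 hv
    have hmem : y + (r / ‖v‖) • v ∈ K := by
      apply hy
      rw [mem_closedBall, dist_eq_norm, add_sub_cancel_left, norm_smul, Real.norm_eq_abs,
        abs_of_nonneg (by positivity), div_mul_cancel₀ _ hnv.ne']
    have h2 := Pool.Agent.Helper65.LR.le_supp hcb.comp hmem v
    rw [inner_add_right, inner_smul_right, real_inner_self_eq_norm_sq] at h2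
    have h3 : r / ‖v‖ * ‖v‖ ^ 2 = r * ‖v‖ := by
      field_simp
    rw [h3] at h2
    have h4 := mul_le_mul_of_nonneg_left h2 hCS.lpos.le
    linarith

theorem ysurj (hJ : S_jj) (hCS : CS K δ lam) (hF : AF K F) (hL : Lev K δ F τ)
    (hYc : Continuous (YY K lam F τ)) (hk : Continuous (kk K δ F))
    (hgrad : ∀ v v', kk K δ F v + lam * inner ℝ (v' - v) (YY K lam F τ v) ≤ kk K δ F v')
    (y : E n) (hy : y ∈ interior K) : ∃ v, YY K lam F τ v = y := by
  obtain ⟨r, hr, hball⟩ := Metric.isOpen_iff.1 isOpen_interior y hy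
  have hcl : closedBall y (r / 2) ⊆ K :=
    (closedBall_subset_ball (by linarith)).trans (hball.trans interior_subset)
  exact surj hCS.lpos hYc hgrad y (r := lam * (r / 2)) (mul_pos hCS.lpos (by linarith))
    (fun v => coer hJ hCS hF hL (by linarith) hcl v) hk

end Pool.Agent.Helper23.FU
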