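import Pool.Agent.Helper73.FU.Stmts

/-!
# Module CN of MP_a2630c_FU: the square of the height plus the square of the norm is concave
-/

set_option autoImplicit false

open MeasureTheory Set Metric Real Filter Topology
open scoped RealInnerProductSpace ENNReal
open Pool.Agent.Helper16.Buoy (E cap IsEllipsoid Homothetic buoyancyBody)
open Pool.Agent.Helper73.LR (CB vol GG Sol aff)
open Pool.Agent.Helper73.SY (CS)
open Pool.Agent.Helper73.FU

namespace Pool.Agent.Helper23.FU

/-- A continuous function on an open convex set whose second differences are at most `o(s²)` is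
concave. -/
theorem concave_of_second {V : Type*} [NormedAddCommGroup V] [NormedSpace ℝ V] {D : Set V}
    (hD : Convex ℝ D) {G : V → ℝ} (hG : ContinuousOn G D)
    (h : ∀ y ∈ D, ∀ (b : V) (ε : ℝ), 0 < ε → ∃ η : ℝ, 0 < η ∧ ∀ s : ℝ, |s| ≤ η →
      y + s • b ∈ D → y - s • b ∈ D → G (y + s • b) + G (y - s • b) - 2 * G y ≤ ε * s ^ 2) :
    ConcaveOn ℝ D G := by
  refine ⟨hD, fun x hx z hz p q hp hq hpq => ?_⟩
  by_contra hne
  simp only [smul_eq_mul, not_le] at hne
  set γ : ℝ → V := fun t => x + t • (z - x) with hγ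
  have hγc : Continuous γ := by fun_prop
  have hγD : ∀ t ∈ Icc (0 : ℝ) 1, γ t ∈ D := by
    intro t ht
    have := hD hx hz (sub_nonneg.2 ht.2) ht.1 (by ring)
    have e : γ t = (1 - t) • x + t • z := by simp only [hγ]; module
    rwa [e]
  have e0 : p • x + q • z = γ q := by
    have : p = 1 - q := by linarith
    simp only [hγ, this]
    module
  set ε : ℝ := p * G x + q * G z - G (p • x + q • z) with hε
  have hεpos : 0 < ε := by simp only [hε]; linarith
  have hq1 : q ≤ 1 := by linarith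
  set φ : ℝ → ℝ := fun t => G (γ t) - (1 - t) * G x - t * G z + ε * (t * (1 - t)) with hφ
  have hφc : ContinuousOn φ (Icc 0 1) := by
    have h1 : ContinuousOn (fun t => G (γ t)) (Icc 0 1) := hG.comp hγc.continuousOn hγD
    have h2 : ContinuousOn (fun t : ℝ => (1 - t) * G x) (Icc 0 1) := by fun_prop
    have h3 : ContinuousOn (fun t : ℝ => t * G z) (Icc 0 1) := by fun_prop
    have h4 : ContinuousOn (fun t : ℝ => ε * (t * (1 - t))) (Icc 0 1) := by fun_prop
    exact ((h1.sub h2).sub h3).add h4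
  obtain ⟨t, ht, hmin⟩ := isCompact_Icc.exists_isMinOn (nonempty_Icc.2 (zero_le_one' ℝ)) hφc
  have hφ0 : φ 0 = 0 := by simp [hφ, hγ]
  have hφ1 : φ 1 = 0 := by simp [hφ, hγ]
  have hφq : φ q < 0 := by
    have : φ q = -ε + ε * (q * (1 - q)) := by
      simp only [hφ]
      rw [← e0]
      have : 1 - q = p := by linarith
      rw [this]
      simp only [hε]
      ring
    rw [this]
    have h1 : q * (1 - q) < 1 := by nlinarith [sq_nonneg (q - 1 / 2)]
    nlinarith
  have hφt : φ t < 0 := lt_of_le_of_lt (hmin ⟨hq, hq1⟩) hφq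
  have ht0 : 0 < t := by
    rcases eq_or_lt_of_le ht.1 with h0 | h0
    · rw [← h0, hφ0] at hφt
      exact absurd hφt (lt_irrefl _)
    · exact h0
  have ht1 : t < 1 := by
    rcases eq_or_lt_of_le ht.2 with h0 | h0
    · rw [h0, hφ1] at hφt
      exact absurd hφt (lt_irrefl _)
    · exact h0
  obtain ⟨η, hη, hs⟩ := h (γ t) (hγD t ht) (z - x) ε hεpos
  set s : ℝ := min η (min t (1 - t)) with hsdef
  have hspos : 0 < s := by
    simp only [hsdef]
    exact lt_min hη (lt_min ht0 (by linarith))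
  have hs1 : s ≤ η := min_le_left _ _
  have hs2 : s ≤ t := (min_le_right _ _).trans (min_le_left _ _)
  have hs3 : s ≤ 1 - t := (min_le_right _ _).trans (min_le_right _ _)
  have f1 : γ t + s • (z - x) = γ (t + s) := by simp only [hγ]; module
  have f2 : γ t - s • (z - x) = γ (t - s) := by simp only [hγ]; module
  have i1 : t + s ∈ Icc (0 : ℝ) 1 := ⟨by linarith, by linarith⟩
  have i2 : t - s ∈ Icc (0 : ℝ) 1 := ⟨by linarith, by linarith⟩
  have k1 := hs s (by rwa [abs_of_pos hspos]) (by rw [f1]; exact hγD _ i1)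
    (by rw [f2]; exact hγD _ i2)
  rw [f1, f2] at k1
  have k2 : φ t ≤ φ (t + s) := hmin i1
  have k3 : φ t ≤ φ (t - s) := hmin i2
  simp only [hφ] at k2 k3
  nlinarith [mul_pos hεpos (pow_pos hspos 2)]

section

variable {n : ℕ} {K : Set (E n)} {δ lam : ℝ} {F τ : E n → ℝ}

/-- the height over a point of the interior -/
noncomputable def Zf (K : Set (E n)) (lam : ℝ) (F τ : E n → ℝ) (y : E n) : ℝ := by
  classical
  exact if h : ∃ v, YY K lam F τ v = y then xx K lam F τ h.choose else 0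

theorem zf_le (hl : 0 < lam) (hB : Bs K δ lam F τ) (v v' : E n) :
    xx K lam F τ v ≤ kk K δ F v' / lam - inner ℝ v' (YY K lam F τ v) := by
  have h1 := hB.grad v v'
  have h2 := hB.val v
  rw [inner_sub_left] at h1
  rw [le_sub_iff_add_le, le_div_iff₀ hl]
  nlinarith

theorem zf_eq (hl : 0 < lam) (hB : Bs K δ lam F τ) (v : E n) :
    xx K lam F τ v = kk K δ F v / lam - inner ℝ v (YY K lam F τ v) := by
  have h2 := hB.val v
  rw [h2, mul_div_cancel_left₀ _ hl.ne']
  ring

theorem zf_Y (hl : 0 < lam) (hB : Bs K δ lam F τ) (v : E n) :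
    Zf K lam F τ (YY K lam F τ v) = xx K lam F τ v := by
  classical
  have hex : ∃ v', YY K lam F τ v' = YY K lam F τ v := ⟨v, rfl⟩
  have h1 : Zf K lam F τ (YY K lam F τ v) = xx K lam F τ hex.choose := by
    unfold Zf
    rw [dif_pos hex]
  have h2 := hex.choose_spec
  rw [h1]
  apply le_antisymm
  · have := zf_le hl hB hex.choose v
    rw [h2] at this
    rw [zf_eq hl hB v]
    exact this
  · have h3 := zf_le hl hB v hex.choose
    have h4 := zf_eq hl hB hex.choose
    rw [h2] at h4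
    linarith

theorem zf_bound (hl : 0 < lam) (hB : Bs K δ lam F τ) {y : E n} (hy : y ∈ interior K) (v' : E n) :
    Zf K lam F τ y ≤ kk K δ F v' / lam - inner ℝ v' y := by
  obtain ⟨v, rfl⟩ := hB.Ysurj y hy
  rw [zf_Y hl hB]
  exact zf_le hl hB v v'

theorem zf_concave (hc : Convex ℝ K) (hl : 0 < lam) (hB : Bs K δ lam F τ) :
    ConcaveOn ℝ (interior K) (Zf K lam F τ) := by
  refine ⟨hc.interior, fun x hx z hz a b ha hb hab => ?_⟩
  obtain ⟨v, hv⟩ := hB.Ysurj _ (hc.interior hx hz ha hb hab)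
  rw [← hv, zf_Y hl hB, zf_eq hl hB, hv]
  have h1 := mul_le_mul_of_nonneg_left (zf_bound hl hB hx v) ha
  have h2 := mul_le_mul_of_nonneg_left (zf_bound hl hB hz v) hb
  simp only [smul_eq_mul]
  rw [inner_add_right, inner_smul_right, inner_smul_right]
  have h3 : kk K δ F v / lam = a * (kk K δ F v / lam) + b * (kk K δ F v / lam) := by
    rw [← add_mul, hab, one_mul]
  rw [h3]
  linarith

/-- real inequality behind the local estimate -/
theorem quad_est {p q x0 s c0 B m e κ : ℝ} (hx0 : 0 < x0) (hκ0 : 0 ≤ κ) (hκ : κ ≤ x0 / 2)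
    (hp1 : p ≤ x0 - s * c0) (hq1 : q ≤ x0 + s * c0) (hpq : p + q ≤ 2 * x0 - s ^ 2 * (m - e))
    (hp2 : x0 - κ ≤ p) (hq2 : x0 - κ ≤ q) (hsc : |s * c0| ≤ κ) (hm : m * x0 = B + c0 ^ 2)
    (he : 0 ≤ e) :
    p ^ 2 + q ^ 2 - 2 * x0 ^ 2 + 2 * s ^ 2 * B ≤ s ^ 2 * (2 * κ * m + 2 * e * x0) := by
  obtain ⟨hs1, hs2⟩ := abs_le.1 hsc
  set α := x0 - s * c0 - p with hα
  set β := x0 + s * c0 - q with hβ
  have hα0 : 0 ≤ α := by linarith
  have hβ0 : 0 ≤ β := by linarith
  have hab : s ^ 2 * (m - e) ≤ α + β := by linarith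
  have h1 : p ^ 2 + q ^ 2 = 2 * x0 ^ 2 + 2 * s ^ 2 * c0 ^ 2 - α * (x0 - s * c0 + p)
      - β * (x0 + s * c0 + q) := by
    have e1 : p = x0 - s * c0 - α := by rw [hα]; ring
    have e2 : q = x0 + s * c0 - β := by rw [hβ]; ring
    rw [e1, e2]
    ring
  have h2 : α * (2 * x0 - 2 * κ) ≤ α * (x0 - s * c0 + p) :=
    mul_le_mul_of_nonneg_left (by linarith) hα0
  have h3 : β * (2 * x0 - 2 * κ) ≤ β * (x0 + s * c0 + q) :=
    mul_le_mul_of_nonneg_left (by linarith) hβ0
  have h4 : s ^ 2 * (m - e) * (2 * x0 - 2 * κ) ≤ (α + β) * (2 * x0 - 2 * κ) :=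
    mul_le_mul_of_nonneg_right hab (by linarith)
  have h5 : s ^ 2 * (m - e) * (2 * x0 - 2 * κ)
      = 2 * s ^ 2 * (m * x0) - s ^ 2 * (2 * κ * m + 2 * e * x0) + s ^ 2 * (2 * e * κ) := by ring
  have h6 : 0 ≤ s ^ 2 * (2 * e * κ) := by positivity
  rw [hm] at h5
  nlinarith

theorem local_est (hl : 0 < lam) (hc : Convex ℝ K) (hB : Bs K δ lam F τ)
    (hSD : ∀ (v a : E n) (ε : ℝ), 0 < ε → ∃ η : ℝ, 0 < η ∧ ∀ h : ℝ, |h| ≤ η →
      kk K δ F (v + h • a) + kk K δ F (v - h • a) - 2 * kk K δ F v ≤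
        h ^ 2 * (lam * xx K lam F τ v * qq v a + ε))
    {y : E n} (hy : y ∈ interior K) (b : E n) {ε : ℝ} (hε : 0 < ε) :
    ∃ η : ℝ, 0 < η ∧ ∀ s : ℝ, |s| ≤ η → y + s • b ∈ interior K → y - s • b ∈ interior K →
      (Zf K lam F τ (y + s • b) ^ 2 + ‖y + s • b‖ ^ 2)
        + (Zf K lam F τ (y - s • b) ^ 2 + ‖y - s • b‖ ^ 2)
        - 2 * (Zf K lam F τ y ^ 2 + ‖y‖ ^ 2) ≤ ε * s ^ 2 := by
  obtain ⟨v0, hv0⟩ := hB.Ysurj y hy
  set Z := Zf K lam F τ with hZ
  set x0 := xx K lam F τ v0 with hx0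
  have hx0pos : 0 < x0 := hB.xpos v0
  have hZy : Z y = x0 := by rw [← hv0, hZ, zf_Y hl hB]
  set c0 : ℝ := inner ℝ v0 b with hc0
  set B : ℝ := ‖b‖ ^ 2 with hBdef
  set a : E n := x0⁻¹ • (b + c0 • v0) with ha
  set m : ℝ := (B + c0 ^ 2) / x0 with hm
  have hmx : m * x0 = B + c0 ^ 2 := div_mul_cancel₀ _ hx0pos.ne'
  have hm0 : 0 ≤ m := by positivity
  have hab : inner ℝ a b = m := by
    rw [ha, real_inner_smul_left, inner_add_left, real_inner_smul_left, real_inner_self_eq_norm_sq,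
      ← hc0, hm, ← hBdef]
    field_simp
  have hva : inner ℝ v0 a = c0 * (1 + ‖v0‖ ^ 2) / x0 := by
    rw [ha, inner_smul_right, inner_add_right, inner_smul_right, real_inner_self_eq_norm_sq, ← hc0]
    field_simp
  have hna : ‖a‖ ^ 2 = (B + 2 * c0 ^ 2 + c0 ^ 2 * ‖v0‖ ^ 2) / x0 ^ 2 := by
    rw [← real_inner_self_eq_norm_sq, ha, real_inner_smul_left, inner_smul_right, inner_add_left,
      inner_add_right, inner_add_right, real_inner_smul_left, inner_smul_right,
      real_inner_smul_left, inner_smul_right, real_inner_self_eq_norm_sq,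
      real_inner_self_eq_norm_sq, real_inner_comm v0 b, ← hc0, ← hBdef]
    field_simp
    ring
  have hqq : x0 * qq v0 a = m := by
    unfold qq
    rw [hva, hna, hm]
    have : (1 : ℝ) + ‖v0‖ ^ 2 ≠ 0 := by positivity
    field_simp
    ring
  -- constants
  set κ : ℝ := min (x0 / 2) (ε / (4 * (m + 1))) with hκ
  have hκpos : 0 < κ := lt_min (by positivity) (by positivity)
  have hκ1 : κ ≤ x0 / 2 := min_le_left _ _
  have hκ2 : κ * (4 * (m + 1)) ≤ ε := by
    have := min_le_right (x0 / 2) (ε / (4 * (m + 1)))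
    rwa [← hκ, le_div_iff₀ (by positivity)] at this
  set e : ℝ := ε / (4 * (x0 + 1)) with he
  have hepos : 0 < e := by positivity
  have he2 : e * (4 * (x0 + 1)) = ε := div_mul_cancel₀ _ (by positivity)
  obtain ⟨η1, hη1, h1⟩ := hSD v0 a (lam * e) (by positivity)
  -- continuity of `Z` along the line
  have hZc : ContinuousAt Z y := by
    have h2 := (zf_concave hc hl hB).continuousOn_interior
    rw [interior_interior] at h2
    exact h2.continuousAt (isOpen_interior.mem_nhds hy)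
  have hline : ContinuousAt (fun s : ℝ => Z (y + s • b)) 0 := by
    have h3 : ContinuousAt (fun s : ℝ => y + s • b) 0 := by fun_prop
    have h4 : ContinuousAt Z (y + (0 : ℝ) • b) := by simpa using hZc
    exact ContinuousAt.comp (f := fun s : ℝ => y + s • b) h4 h3
  obtain ⟨η2, hη2, h2⟩ := Metric.continuousAt_iff.1 hline κ hκpos
  set η : ℝ := min η1 (min (η2 / 2) (κ / (|c0| + 1))) with hη
  have hηpos : 0 < η := lt_min hη1 (lt_min (by positivity) (by positivity))
  refine ⟨η, hηpos, fun s hs hm1 hm2 => ?_⟩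
  have hs1 : |s| ≤ η1 := hs.trans (min_le_left _ _)
  have hs2 : |s| ≤ η2 / 2 := hs.trans ((min_le_right _ _).trans (min_le_left _ _))
  have hs3 : |s| ≤ κ / (|c0| + 1) := hs.trans ((min_le_right _ _).trans (min_le_right _ _))
  have k0 := h1 s hs1
  have hlow : ∀ t : ℝ, |t| = |s| → x0 - κ ≤ Z (y + t • b) := by
    intro t ht
    have h3 := h2 (x := t) (by rw [Real.dist_eq, sub_zero, ht]; linarith)
    rw [Real.dist_eq] at h3
    have h4 : Z (y + (0 : ℝ) • b) = x0 := by simpa using hZy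
    rw [h4] at h3
    linarith [(abs_lt.1 h3).1]
  have eneg : y - s • b = y + (-s) • b := by rw [neg_smul, sub_eq_add_neg]
  have l1 := hlow s rfl
  have l2 := hlow (-s) (abs_neg s)
  rw [← eneg] at l2
  -- upper bounds
  have u1 := zf_bound hl hB hm1 (v0 + s • a)
  have u2 := zf_bound hl hB hm2 (v0 - s • a)
  have u3 := zf_bound hl hB hm1 v0
  have u4 := zf_bound hl hB hm2 v0
  have hx0eq : kk K δ F v0 / lam - inner ℝ v0 y = x0 := by
    rw [← hv0, ← zf_eq hl hB v0]
  have i1 : inner ℝ (v0 + s • a) (y + s • b)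
      = inner ℝ v0 y + s * c0 + s * inner ℝ a y + s ^ 2 * m := by
    rw [inner_add_left, inner_add_right, inner_add_right, real_inner_smul_left a y,
      real_inner_smul_left a (s • b), inner_smul_right v0 b, inner_smul_right a b, hab, ← hc0]
    ring
  have i2 : inner ℝ (v0 - s • a) (y - s • b)
      = inner ℝ v0 y - s * c0 - s * inner ℝ a y + s ^ 2 * m := by
    rw [inner_sub_left, inner_sub_right, inner_sub_right, real_inner_smul_left a y,
      real_inner_smul_left a (s • b), inner_smul_right v0 b, inner_smul_right a b, hab, ← hc0]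
    ring
  have i3 : inner ℝ v0 (y + s • b) = inner ℝ v0 y + s * c0 := by
    rw [inner_add_right, inner_smul_right]
  have i4 : inner ℝ v0 (y - s • b) = inner ℝ v0 y - s * c0 := by
    rw [inner_sub_right, inner_smul_right]
  rw [i1] at u1
  rw [i2] at u2
  rw [i3] at u3
  rw [i4] at u4
  have k1 : (kk K δ F (v0 + s • a) + kk K δ F (v0 - s • a)) / lam
      ≤ 2 * (kk K δ F v0 / lam) + s ^ 2 * (m + e) := by
    rw [div_le_iff₀ hl]
    have : lam * x0 * qq v0 a = lam * m := by rw [mul_assoc, hqq]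
    rw [this] at k0
    have h5 : (2 * (kk K δ F v0 / lam) + s ^ 2 * (m + e)) * lam
        = 2 * kk K δ F v0 + s ^ 2 * (lam * m + lam * e) := by
      field_simp
    rw [h5]
    linarith
  rw [add_div] at k1
  have hpq : Z (y + s • b) + Z (y - s • b) ≤ 2 * x0 - s ^ 2 * (m - e) := by
    have h6 : s ^ 2 * (m - e) = s ^ 2 * m - s ^ 2 * e := by ring
    have h7 : s ^ 2 * (m + e) = s ^ 2 * m + s ^ 2 * e := by ring
    rw [h7] at k1
    rw [h6]
    linarith
  have hsc : |s * c0| ≤ κ := by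
    rw [abs_mul]
    rw [le_div_iff₀ (by positivity)] at hs3
    nlinarith [abs_nonneg s, abs_nonneg c0]
  have main := quad_est (B := B) hx0pos hκpos.le hκ1 (by linarith) (by linarith) hpq l1 l2 hsc hmx
    hepos.le
  have n1 : ‖y + s • b‖ ^ 2 + ‖y - s • b‖ ^ 2 = 2 * ‖y‖ ^ 2 + 2 * s ^ 2 * B := by
    have := parallelogram_law_with_norm ℝ y (s • b)
    rw [norm_smul, Real.norm_eq_abs] at this
    have h8 : (|s| * ‖b‖) ^ 2 = s ^ 2 * B := by
      rw [mul_pow, sq_abs]
    rw [h8] at this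
    linarith
  have h9 : 2 * κ * m + 2 * e * x0 ≤ ε := by nlinarith [hκpos, hepos]
  have h10 : s ^ 2 * (2 * κ * m + 2 * e * x0) ≤ ε * s ^ 2 := by
    rw [mul_comm ε]
    exact mul_le_mul_of_nonneg_left h9 (sq_nonneg s)
  rw [hZy]
  linarith

end

theorem s_cn : S_cn := by
  intro n K δ lam F τ hCS _ _ hB hSD
  have hl := hCS.lpos
  have hc := hCS.cb.conv
  refine ⟨Zf K lam F τ, zf_Y hl hB, ?_⟩
  apply concave_of_second hc.interior
  · have h2 := (zf_concave hc hl hB).continuousOn_interior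
    rw [interior_interior] at h2
    exact (h2.pow 2).add (by fun_prop)
  · intro y hy b ε hε
    exact local_est hl hc hB hSD hy b hε

end Pool.Agent.Helper23.FU
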