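import Pool.Agent.Helper73.FU.Stmts

/-!
# Module PWF of MP_a2630c_FU: the product of the distances to the boundary along a direction
-/

set_option autoImplicit false

open MeasureTheory Set Metric Real Filter Topology
open scoped RealInnerProductSpace ENNReal
open Pool.Agent.Helper16.Buoy (E cap IsEllipsoid Homothetic buoyancyBody)
open Pool.Agent.Helper73.LR (CB vol GG Sol aff)
open Pool.Agent.Helper73.FU

namespace Pool.Agent.Helper23.FU

variable {n : ℕ} {K : Set (E n)} {w y : E n}

/-- parameters of the points of `K` on a line -/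
def Sl (K : Set (E n)) (w y : E n) : Set ℝ := {s : ℝ | y + s • w ∈ K}

theorem sl_bound (hk : IsCompact K) : ∃ R : ℝ, 0 ≤ R ∧ ∀ w y : E n, ‖w‖ = 1 → y ∈ K →
    ∀ s ∈ Sl K w y, |s| ≤ R := by
  obtain ⟨R, hR⟩ := hk.isBounded.exists_norm_le
  refine ⟨2 * |R|, by positivity, fun w y hw hy s hs => ?_⟩
  have h1 := hR _ hy
  have h2 := hR _ (show y + s • w ∈ K from hs)
  have h3 : ‖s • w‖ ≤ ‖y + s • w‖ + ‖y‖ := by
    have := norm_sub_le (y + s • w) y
    simpa using this
  rw [norm_smul, hw, mul_one, Real.norm_eq_abs] at h3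
  linarith [le_abs_self R]

theorem sl_bdd (hk : IsCompact K) (hw : ‖w‖ = 1) (hy : y ∈ K) : BddAbove (Sl K w y) := by
  obtain ⟨R, -, hR⟩ := sl_bound hk
  exact ⟨R, fun s hs => (le_abs_self s).trans (hR w y hw hy s hs)⟩

theorem sl_closed (hk : IsCompact K) : IsClosed (Sl K w y) :=
  hk.isClosed.preimage (by fun_prop : Continuous fun s : ℝ => y + s • w)

theorem zero_mem (hy : y ∈ K) : (0 : ℝ) ∈ Sl K w y := by
  show y + (0 : ℝ) • w ∈ K
  simpa using hy

theorem up_mem (hk : IsCompact K) (hw : ‖w‖ = 1) (hy : y ∈ K) : y + up K w y • w ∈ K :=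
  (sl_closed hk).csSup_mem ⟨0, zero_mem hy⟩ (sl_bdd hk hw hy)

theorem le_up (hk : IsCompact K) (hw : ‖w‖ = 1) (hy : y ∈ K) {s : ℝ} (hs : y + s • w ∈ K) :
    s ≤ up K w y := le_csSup (sl_bdd hk hw hy) hs

theorem up_nonneg (hk : IsCompact K) (hw : ‖w‖ = 1) (hy : y ∈ K) : 0 ≤ up K w y :=
  le_up hk hw hy (zero_mem hy)

theorem mem_iff_up (hK : CB K) (hw : ‖w‖ = 1) (hy : y ∈ K) (s : ℝ) :
    y + s • w ∈ K ↔ -up K (-w) y ≤ s ∧ s ≤ up K w y := by
  have hw' : ‖-w‖ = 1 := by rwa [norm_neg]
  have m1 := up_mem hK.comp hw hy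
  have m2 := up_mem hK.comp hw' hy
  have n1 := up_nonneg hK.comp hw hy
  have n2 := up_nonneg hK.comp hw' hy
  constructor
  · intro h
    refine ⟨?_, le_up hK.comp hw hy h⟩
    have : -s ≤ up K (-w) y := le_up hK.comp hw' hy (by simpa using h)
    linarith
  · rintro ⟨h1, h2⟩
    set p := up K (-w) y with hp
    set q := up K w y with hq
    rcases eq_or_ne (p + q) 0 with h0 | h0
    · have h3 : s = 0 := by linarith
      rw [h3]
      simpa using hy
    have hpos : 0 < p + q := lt_of_le_of_ne (by linarith) (Ne.symm h0)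
    have h3 := hK.conv m2 m1 (a := (q - s) / (p + q)) (b := (s + p) / (p + q))
      (div_nonneg (by linarith) hpos.le) (div_nonneg (by linarith) hpos.le) (by
        field_simp
        ring)
    have h4 : ((q - s) / (p + q)) • (y + p • -w) + ((s + p) / (p + q)) • (y + q • w)
        = y + s • w := by
      have e1 : (q - s) / (p + q) + (s + p) / (p + q) = 1 := by
        field_simp
        ring
      have e2 : -((q - s) / (p + q) * p) + (s + p) / (p + q) * q = s := by
        field_simp
        ring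
      calc ((q - s) / (p + q)) • (y + p • -w) + ((s + p) / (p + q)) • (y + q • w)
          = ((q - s) / (p + q) + (s + p) / (p + q)) • y
            + (-((q - s) / (p + q) * p) + (s + p) / (p + q) * q) • w := by module
        _ = y + s • w := by rw [e1, e2, one_smul]
    rwa [h4] at h3

theorem up_shift (hk : IsCompact K) (hw : ‖w‖ = 1) (hy : y ∈ K) {s : ℝ} (hs : y + s • w ∈ K) :
    up K w (y + s • w) = up K w y - s := by
  have m1 := up_mem hk hw hy
  have m2 := up_mem hk hw hs
  apply le_antisymm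
  · have h1 : y + (s + up K w (y + s • w)) • w ∈ K := by
      rw [add_smul, ← add_assoc]
      exact m2
    linarith [le_up hk hw hy h1]
  · apply le_up hk hw hs
    have : y + s • w + (up K w y - s) • w = y + up K w y • w := by module
    rwa [this]

theorem up_shift' (hk : IsCompact K) (hw : ‖w‖ = 1) (hy : y ∈ K) {s : ℝ} (hs : y + s • w ∈ K) :
    up K (-w) (y + s • w) = up K (-w) y + s := by
  have hw' : ‖-w‖ = 1 := by rwa [norm_neg]
  have e : y + s • w = y + (-s) • (-w) := by simp
  have := up_shift (w := -w) (s := -s) hk hw' hy (by rwa [← e])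
  rw [← e] at this
  rw [this]
  ring

theorem up_pos (hK : CB K) (hw : ‖w‖ = 1) (hy : y ∈ interior K) : 0 < up K w y := by
  have hcont : Continuous (fun s : ℝ => y + s • w) := by fun_prop
  have h1 : ∀ᶠ s in 𝓝 (0 : ℝ), y + s • w ∈ interior K := by
    apply hcont.continuousAt.eventually_mem
    apply isOpen_interior.mem_nhds
    simpa using hy
  obtain ⟨ε, hε, h2⟩ := Metric.eventually_nhds_iff.1 h1
  have h3 : y + (ε / 2) • w ∈ K := by
    apply interior_subset
    apply h2
    rw [Real.dist_eq, sub_zero, abs_of_pos (by positivity)]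
    linarith
  have h4 := le_up hK.comp hw (interior_subset hy) h3
  linarith

theorem up_concave (hK : CB K) (hw : ‖w‖ = 1) : ConcaveOn ℝ K (up K w) := by
  refine ⟨hK.conv, fun x hx z hz a b ha hb hab => ?_⟩
  have h1 := hK.conv (up_mem hK.comp hw hx) (up_mem hK.comp hw hz) ha hb hab
  apply le_up hK.comp hw (hK.conv hx hz ha hb hab)
  have : a • x + b • z + (a • up K w x + b • up K w z) • w
      = a • (x + up K w x • w) + b • (z + up K w z • w) := by
    simp only [smul_eq_mul]
    module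
  rwa [this]

theorem up_cont (hK : CB K) (hw : ‖w‖ = 1) : ContinuousOn (up K w) (interior K) :=
  (up_concave hK hw).continuousOn_interior

/-- geometric mean of concave functions -/
theorem geo_mean {a b p q p' q' : ℝ} (ha : 0 ≤ a) (hb : 0 ≤ b) (hp : 0 ≤ p) (hq : 0 ≤ q)
    (hp' : 0 ≤ p') (hq' : 0 ≤ q') :
    a * √(p * q) + b * √(p' * q') ≤ √((a * p + b * p') * (a * q + b * q')) := by
  apply Real.le_sqrt_of_sq_le
  have h1 := Real.sq_sqrt (mul_nonneg hp hq)
  have h2 := Real.sq_sqrt (mul_nonneg hp' hq')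
  have h3 : 2 * (√(p * q) * √(p' * q')) ≤ p * q' + p' * q := by
    rw [← Real.sqrt_mul (mul_nonneg hp hq)]
    have h4 : p * q * (p' * q') ≤ ((p * q' + p' * q) / 2) ^ 2 := by
      nlinarith [sq_nonneg (p * q' - p' * q)]
    have h5 := Real.sqrt_le_sqrt h4
    rw [Real.sqrt_sq (by positivity)] at h5
    linarith
  have h6 : 0 ≤ a * b := mul_nonneg ha hb
  have h7 := mul_le_mul_of_nonneg_left h3 h6
  have e1 : (a * √(p * q) + b * √(p' * q')) ^ 2
      = a ^ 2 * √(p * q) ^ 2 + b ^ 2 * √(p' * q') ^ 2 + a * b * (2 * (√(p * q) * √(p' * q'))) := by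
    ring
  rw [e1, h1, h2]
  nlinarith

theorem s_pwf : S_pwf := by
  intro n K w hK hw
  have hw' : ‖-w‖ = 1 := by rwa [norm_neg]
  refine ⟨fun y hy s => mem_iff_up hK hw hy s, fun y hy => ?_, fun y hy s hs => ?_, ?_, ?_, ?_⟩
  · have h1 := up_pos hK hw hy
    exact ⟨h1, mul_pos h1 (up_pos hK hw' hy)⟩
  · unfold pw
    rw [up_shift hK.comp hw hy hs, up_shift' hK.comp hw hy hs]
  · exact (up_cont hK hw).mul (up_cont hK hw')
  · refine ⟨hK.conv, fun x hx z hz a b ha hb hab => ?_⟩
    simp only [smul_eq_mul]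
    have n1 := up_nonneg hK.comp hw hx
    have n2 := up_nonneg hK.comp hw hz
    have n3 := up_nonneg hK.comp hw' hx
    have n4 := up_nonneg hK.comp hw' hz
    refine (geo_mean ha hb n1 n3 n2 n4).trans (Real.sqrt_le_sqrt ?_)
    have c1 := (up_concave hK hw).2 hx hz ha hb hab
    have c2 := (up_concave hK hw').2 hx hz ha hb hab
    simp only [smul_eq_mul] at c1 c2
    exact mul_le_mul c1 c2 (by positivity) (up_nonneg hK.comp hw (hK.conv hx hz ha hb hab))
  · obtain ⟨R, hR0, hR⟩ := sl_bound hK.comp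
    refine ⟨R * R, fun y hy => ⟨mul_nonneg (up_nonneg hK.comp hw hy) (up_nonneg hK.comp hw' hy), ?_⟩⟩
    have h1 := hR w y hw hy _ (up_mem hK.comp hw hy)
    have h2 := hR (-w) y hw' hy _ (up_mem hK.comp hw' hy)
    exact mul_le_mul ((le_abs_self _).trans h1) ((le_abs_self _).trans h2)
      (up_nonneg hK.comp hw' hy) hR0

end Pool.Agent.Helper23.FU
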